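import Mathlib

/-!
# Local resolving sets that are minimal towards a root, and a counting lemma
-/

set_option autoImplicit false

namespace Pool.Agent.N431.LMD

/-- A local resolving set. -/
def Resolving {V : Type} (G : SimpleGraph V) (W : Finset V) : Prop :=
  ∀ u v : V, G.Adj u v → ∃ w ∈ W, G.dist u w ≠ G.dist v w

lemma resolving_univ {V : Type} [Fintype V] {G : SimpleGraph V} (hG : G.Connected) :
    Resolving G Finset.univ := by
  intro u v huv
  refine ⟨u, Finset.mem_univ _, ?_⟩
  rw [SimpleGraph.dist_self]
  have := hG.pos_dist_of_ne huv.ne'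
  omega

/-- There is a local resolving set `W` such that every `w ∈ W` has an edge `ab` whose resolvers
are `w`, perhaps further vertices outside `W`, but no vertex closer to the root than `w`. -/
lemma exists_good {V : Type} [Fintype V] [DecidableEq V] {G : SimpleGraph V} (hG : G.Connected)
    (r : V) :
    ∃ W : Finset V, Resolving G W ∧ ∀ w ∈ W, ∃ a b, G.Adj a b ∧ G.dist a w ≠ G.dist b w ∧
      (∀ w' ∈ W, w' ≠ w → G.dist a w' = G.dist b w') ∧
      (∀ v, G.dist r v < G.dist r w → G.dist a v = G.dist b v) := by
  classical
  set N : ℕ := Fintype.card V + 1 with hN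
  set μ : Finset V → ℕ := fun W => ∑ w ∈ W, N ^ G.dist r w with hμ
  have hex : ∃ k, ∃ W : Finset V, Resolving G W ∧ μ W = k := ⟨_, Finset.univ, resolving_univ hG, rfl⟩
  obtain ⟨W, hW, hWk⟩ := Nat.find_spec hex
  have hmin : ∀ W' : Finset V, Resolving G W' → μ W ≤ μ W' := by
    intro W' hW'
    rw [hWk]
    exact Nat.find_min' hex ⟨W', hW', rfl⟩
  refine ⟨W, hW, ?_⟩
  intro w hw
  set C : Finset V := Finset.univ.filter fun v => G.dist r v < G.dist r w with hC
  set W' : Finset V := (W.erase w) ∪ C with hW'
  have hlt : μ W' < μ W := by
    have h1 : μ W' ≤ μ (W.erase w) + μ C := by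
      simp only [hμ, hW']
      rw [← Finset.sum_union_inter]
      exact Nat.le_add_right _ _
    have h2 : μ (W.erase w) + N ^ G.dist r w = μ W := by
      simp only [hμ]
      exact Finset.sum_erase_add _ _ hw
    have h3 : μ C < N ^ G.dist r w := by
      rcases Nat.eq_zero_or_pos (G.dist r w) with h0 | hpos
      · have : C = ∅ := by
          rw [hC, Finset.filter_eq_empty_iff]
          intro v _
          omega
        rw [this, h0]
        simp [hμ]
      · have h4 : μ C ≤ ∑ _v ∈ C, N ^ (G.dist r w - 1) := by
          simp only [hμ]
          apply Finset.sum_le_sum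
          intro v hv
          rw [hC, Finset.mem_filter] at hv
          apply Nat.pow_le_pow_right (by omega)
          omega
        rw [Finset.sum_const, smul_eq_mul] at h4
        have h5 : C.card ≤ Fintype.card V := Finset.card_le_univ _
        have h6 : N ^ G.dist r w = N * N ^ (G.dist r w - 1) := by
          rw [← pow_succ']
          congr 1
          omega
        have h7 : 0 < N ^ (G.dist r w - 1) := pow_pos (by omega) _
        calc μ C ≤ C.card * N ^ (G.dist r w - 1) := h4
          _ < N * N ^ (G.dist r w - 1) := by
              apply Nat.mul_lt_mul_of_pos_right (by omega) h7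
          _ = N ^ G.dist r w := h6.symm
    omega
  have hnot : ¬ Resolving G W' := fun h => absurd (hmin W' h) (by omega)
  unfold Resolving at hnot
  push Not at hnot
  obtain ⟨a, b, hab, hres⟩ := hnot
  refine ⟨a, b, hab, ?_, ?_, ?_⟩
  · obtain ⟨w', hw', hne⟩ := hW a b hab
    by_cases h : w' = w
    · rw [← h]; exact hne
    · exact absurd (hres w' (by
        rw [hW', Finset.mem_union]
        exact Or.inl (Finset.mem_erase.2 ⟨h, hw'⟩))) hne
  · intro w' hw' hne
    exact hres w' (by
      rw [hW', Finset.mem_union]
      exact Or.inl (Finset.mem_erase.2 ⟨hne, hw'⟩))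
  · intro v hv
    exact hres v (by
      rw [hW', Finset.mem_union]
      right
      rw [hC, Finset.mem_filter]
      exact ⟨Finset.mem_univ _, hv⟩)

/-- Counting lemma. -/
lemma card_add_le {X I : Type} [Fintype X] [Fintype I] (x y : I → X)
    (c : I → X → ℕ) (hne : ∀ i, c i (x i) ≠ c i (y i))
    (heq : ∀ i j, i ≠ j → c i (x j) = c i (y j)) (s : Setoid X)
    (hs : ∀ i, s.r (x i) (y i)) [Fintype (Quotient s)] :
    Fintype.card I + Fintype.card (Quotient s) ≤ Fintype.card X := by
  classical
  set v : I ⊕ Quotient s → (X → ℚ) := fun k => match k with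
    | Sum.inl i => Pi.single (x i) 1 - Pi.single (y i) 1
    | Sum.inr q => Pi.single q.out 1 with hv
  have hlin : LinearIndependent ℚ v := by
    rw [Fintype.linearIndependent_iff]
    intro g hg
    rw [Fintype.sum_sum_type] at hg
    -- test functional
    have htest : ∀ f : X → ℚ, ∑ i : I, g (Sum.inl i) * (f (x i) - f (y i)) +
        ∑ q : Quotient s, g (Sum.inr q) * f q.out = 0 := by
      intro f
      have h1 : ∑ z : X, f z * ((∑ i : I, g (Sum.inl i) • v (Sum.inl i) +
          ∑ q : Quotient s, g (Sum.inr q) • v (Sum.inr q)) z) = 0 := by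
        rw [hg]; simp
      have h2 : ∀ z : X, f z * ((∑ i : I, g (Sum.inl i) • v (Sum.inl i) +
          ∑ q : Quotient s, g (Sum.inr q) • v (Sum.inr q)) z) =
          ∑ i : I, f z * (g (Sum.inl i) * v (Sum.inl i) z) +
          ∑ q : Quotient s, f z * (g (Sum.inr q) * v (Sum.inr q) z) := by
        intro z
        simp only [Pi.add_apply, Finset.sum_apply, Pi.smul_apply, smul_eq_mul, mul_add,
          Finset.mul_sum]
      rw [Finset.sum_congr rfl (fun z _ => h2 z), Finset.sum_add_distrib, Finset.sum_comm,
        Finset.sum_comm (f := fun z (q : Quotient s) => f z * (g (Sum.inr q) * v (Sum.inr q) z))] at h1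
      rw [← h1]
      congr 1
      · apply Finset.sum_congr rfl
        intro i _
        have h3 : ∀ z : X, f z * (g (Sum.inl i) * v (Sum.inl i) z) =
            (if z = x i then g (Sum.inl i) * f z else 0) -
            (if z = y i then g (Sum.inl i) * f z else 0) := by
          intro z
          simp only [hv, Pi.sub_apply, Pi.single_apply]
          split_ifs <;> ring
        rw [Finset.sum_congr rfl (fun z _ => h3 z), Finset.sum_sub_distrib]
        simp
        ring
      · apply Finset.sum_congr rfl
        intro q _
        have h3 : ∀ z : X, f z * (g (Sum.inr q) * v (Sum.inr q) z) =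
            (if z = q.out then g (Sum.inr q) * f z else 0) := by
          intro z
          simp only [hv, Pi.single_apply]
          split_ifs <;> ring
        rw [Finset.sum_congr rfl (fun z _ => h3 z)]
        simp
    have hR : ∀ q, g (Sum.inr q) = 0 := by
      intro q0
      have h := htest (fun z => if (Quotient.mk s z) = q0 then 1 else 0)
      have h1 : ∀ i, (Quotient.mk s (x i)) = (Quotient.mk s (y i)) := fun i => Quotient.sound (hs i)
      simp only [h1, sub_self, mul_zero, Finset.sum_const_zero, zero_add, Quotient.out_eq,
        mul_ite, mul_one] at h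
      simpa using h
    intro k
    rcases k with j | q
    · have h := htest (fun z => (c j z : ℚ))
      simp only [hR, zero_mul, Finset.sum_const_zero, add_zero] at h
      rw [Finset.sum_eq_single j] at h
      · rcases mul_eq_zero.1 h with h | h
        · exact h
        · exfalso
          apply hne j
          have : (c j (x j) : ℚ) = c j (y j) := by linarith
          exact_mod_cast this
      · intro i _ hij
        rw [heq j i (Ne.symm hij)]
        ring
      · simp
    · exact hR q
  have h := hlin.fintype_card_le_finrank
  rw [Fintype.card_sum, Module.finrank_fintype_fun_eq_card] at h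
  exact h

end Pool.Agent.N431.LMD
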