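import Pool.Agent.N431.LMD1

/-!
# Local metric dimension and clique number: the counting argument
-/

set_option autoImplicit false

namespace Pool.Agent.N431.LMD

lemma exists_closer {V : Type} {G : SimpleGraph V} (hG : G.Connected) {a b : V} (hab : a ≠ b) :
    ∃ z, G.Adj a z ∧ G.dist z b + 1 = G.dist a b := by
  obtain ⟨p, hp⟩ := hG.exists_walk_length_eq_dist a b
  cases p with
  | nil => exact absurd rfl hab
  | cons h q =>
    rename_i z
    refine ⟨z, h, ?_⟩
    have h1 : G.dist z b ≤ q.length := SimpleGraph.dist_le q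
    have h2 : G.dist a b ≤ G.dist a z + G.dist z b := hG.dist_triangle
    have h3 : G.dist a z = 1 := SimpleGraph.dist_eq_one_iff_adj.2 h
    simp at hp
    omega

/-- The private edge of `w` contains `w`. -/
structure TypeA {V : Type} (G : SimpleGraph V) (r : V) (W : Finset V) (w y : V) : Prop where
  notMem : y ∉ W
  adj : G.Adj w y
  eqd : ∀ w' ∈ W, w' ≠ w → G.dist w w' = G.dist y w'
  closer : ∀ v, G.dist r v < G.dist r w → G.dist w v = G.dist y v

/-- The private edge of `w` avoids `W`. -/
structure TypeB {V : Type} (G : SimpleGraph V) (W : Finset V) (w x y : V) : Prop where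
  hx : x ∉ W
  hy : y ∉ W
  adj : G.Adj x y
  ne : G.dist x w ≠ G.dist y w
  eqd : ∀ w' ∈ W, w' ≠ w → G.dist x w' = G.dist y w'

lemma split_types {V : Type} {G : SimpleGraph V} (hG : G.Connected) (r : V) (W : Finset V)
    (h : ∀ w ∈ W, ∃ a b, G.Adj a b ∧ G.dist a w ≠ G.dist b w ∧
      (∀ w' ∈ W, w' ≠ w → G.dist a w' = G.dist b w') ∧
      (∀ v, G.dist r v < G.dist r w → G.dist a v = G.dist b v)) :
    ∀ w ∈ W, (∃ y, TypeA G r W w y) ∨ (∃ x y, TypeB G W w x y) := by
  intro w hw
  obtain ⟨a, b, hab, hne, heq, hcl⟩ := h w hw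
  have ha : a ∈ W → a = w := by
    intro haW
    by_contra hc
    have h1 := heq a haW hc
    rw [SimpleGraph.dist_self] at h1
    have := hG.pos_dist_of_ne hab.ne'
    omega
  have hb : b ∈ W → b = w := by
    intro hbW
    by_contra hc
    have h1 := heq b hbW hc
    rw [SimpleGraph.dist_self] at h1
    have := hG.pos_dist_of_ne hab.ne
    omega
  by_cases haW : a ∈ W
  · have h1 := ha haW
    subst h1
    left
    refine ⟨b, ?_, hab, heq, hcl⟩
    intro hbW
    exact hab.ne (hb hbW).symm
  · by_cases hbW : b ∈ W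
    · have h1 := hb hbW
      subst h1
      left
      exact ⟨a, haW, hab.symm, fun w' hw' hn => (heq w' hw' hn).symm, fun v hv => (hcl v hv).symm⟩
    · right
      exact ⟨a, b, haW, hbW, hab, hne, heq⟩

lemma no_ext {V : Type} [DecidableEq V] {G : SimpleGraph V} {k : ℕ} (hcf : G.CliqueFree (k + 1))
    {Q : Finset V} (hQ : G.IsNClique k Q) {z : V} (hz : ∀ q ∈ Q, G.Adj z q) : False :=
  hcf _ (hQ.insert hz)

lemma eqvGen_or {X I : Type} (x y : I → X) {a b : X}
    (h : Relation.EqvGen (fun a b => ∃ i : I, a = x i ∧ b = y i) a b) :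
    a = b ∨ ∃ i, Relation.EqvGen (fun a b => ∃ i : I, a = x i ∧ b = y i) a (x i) := by
  induction h with
  | rel a b h =>
    obtain ⟨i, hi, _⟩ := h
    right
    exact ⟨i, hi ▸ Relation.EqvGen.refl _⟩
  | refl a => left; rfl
  | symm a b h ih =>
    rcases ih with h1 | ⟨i, hi⟩
    · left; exact h1.symm
    · right; exact ⟨i, Relation.EqvGen.trans _ _ _ (Relation.EqvGen.symm _ _ h) hi⟩
  | trans a b c h1 h2 ih1 ih2 =>
    rcases ih1 with h3 | h3
    · subst h3; exact ih2
    · right; exact h3

lemma eqvGen_eq {X I : Type} (x y : I → X) (g : X → ℕ) (hg : ∀ i, g (x i) = g (y i)) {a b : X}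
    (h : Relation.EqvGen (fun a b => ∃ i : I, a = x i ∧ b = y i) a b) : g a = g b := by
  induction h with
  | rel a b h =>
    obtain ⟨i, hi, hj⟩ := h
    rw [hi, hj, hg]
  | refl a => rfl
  | symm a b h ih => exact ih.symm
  | trans a b c h1 h2 ih1 ih2 => exact ih1.trans ih2

/-- Sum bound. -/
lemma sum_bound {T : Type} [Fintype T] [DecidableEq T] (k : ℕ) (hk : 1 ≤ k) (c : T → ℕ)
    (h : (∀ t, c t ≤ k) ∨ ∃ t0 t1, t0 ≠ t1 ∧ c t0 ≤ k + 1 ∧ c t1 = 0 ∧ ∀ t, t ≠ t0 → c t ≤ k) :
    ∑ t, c t ≤ k * Fintype.card T := by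
  rcases h with h | ⟨t0, t1, hne, h0, h1, h2⟩
  · calc ∑ t, c t ≤ ∑ _t : T, k := Finset.sum_le_sum fun t _ => h t
      _ = k * Fintype.card T := by rw [Finset.sum_const, Finset.card_univ, smul_eq_mul, mul_comm]
  · have e1 : c t0 + ∑ t ∈ Finset.univ.erase t0, c t = ∑ t, c t :=
      Finset.add_sum_erase _ _ (Finset.mem_univ _)
    have m1 : t1 ∈ Finset.univ.erase t0 := Finset.mem_erase.2 ⟨hne.symm, Finset.mem_univ _⟩
    have e2 : c t1 + ∑ t ∈ (Finset.univ.erase t0).erase t1, c t = ∑ t ∈ Finset.univ.erase t0, c t :=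
      Finset.add_sum_erase _ _ m1
    have e3 : ∑ t ∈ (Finset.univ.erase t0).erase t1, c t ≤
        ∑ _t ∈ (Finset.univ.erase t0).erase t1, k := by
      apply Finset.sum_le_sum
      intro t ht
      rw [Finset.mem_erase, Finset.mem_erase] at ht
      exact h2 t ht.2.1
    have e4 : ((Finset.univ.erase t0).erase t1).card = Fintype.card T - 2 := by
      rw [Finset.card_erase_of_mem m1, Finset.card_erase_of_mem (Finset.mem_univ _),
        Finset.card_univ]
      omega
    have e5 : 2 ≤ Fintype.card T := by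
      have := Fintype.one_lt_card_iff.2 ⟨t0, t1, hne⟩
      omega
    rw [Finset.sum_const, smul_eq_mul, e4] at e3
    obtain ⟨m, hm⟩ := Nat.exists_eq_add_of_le e5
    rw [hm] at e3 ⊢
    have e6 : (2 + m - 2) * k = m * k := by congr 1; omega
    have e7 : k * (2 + m) = k + k + m * k := by ring
    omega

theorem count {V : Type} [Fintype V] [DecidableEq V] {G : SimpleGraph V} (hG : G.Connected)
    {ω : ℕ} (hcf : G.CliqueFree (ω + 1)) (hω : 3 ≤ ω) (hn : ω + 1 ≤ Fintype.card V) (r : V)
    (W : Finset V)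
    (hgood : ∀ w ∈ W, (∃ y, TypeA G r W w y) ∨ (∃ x y, TypeB G W w x y)) :
    W.card ≤ (ω - 2) * (Fintype.card V - W.card) := by
  classical
  have hA : ∀ i : {w : V // w ∈ W ∧ ∃ y, TypeA G r W w y},
      ∃ y : {v : V // v ∉ W}, TypeA G r W i.1 y.1 := by
    rintro ⟨w, hw, y, hy⟩
    exact ⟨⟨y, hy.notMem⟩, hy⟩
  choose f hf using hA
  have hB : ∀ i : {w : V // w ∈ W ∧ ¬ ∃ y, TypeA G r W w y},
      ∃ x y : {v : V // v ∉ W}, TypeB G W i.1 x.1 y.1 := by
    rintro ⟨w, hw, hnot⟩
    rcases hgood w hw with h | ⟨x, y, h⟩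
    · exact absurd h hnot
    · exact ⟨⟨x, h.hx⟩, ⟨y, h.hy⟩, h⟩
  choose bx by' hb using hB
  set R : {v : V // v ∉ W} → {v : V // v ∉ W} → Prop :=
    fun a b => ∃ i : {w : V // w ∈ W ∧ ¬ ∃ y, TypeA G r W w y}, a = bx i ∧ b = by' i with hR
  set s : Setoid {v : V // v ∉ W} := Relation.EqvGen.setoid R with hs
  -- F2
  have F2 : Fintype.card {w : V // w ∈ W ∧ ¬ ∃ y, TypeA G r W w y} + Fintype.card (Quotient s) ≤
      Fintype.card {v : V // v ∉ W} := by
    apply card_add_le bx by' (fun i z => G.dist z.1 i.1) (fun i => (hb i).ne)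
    · intro i j hij
      apply (hb j).eqd i.1 i.2.1
      intro h
      exact hij (Subtype.ext h)
    · intro i
      exact Relation.EqvGen.rel _ _ ⟨i, rfl, rfl⟩
  -- F1
  have F1 : ∀ (i : {w : V // w ∈ W ∧ ∃ y, TypeA G r W w y}) (a b : {v : V // v ∉ W}),
      Quotient.mk s a = Quotient.mk s b → G.dist a.1 i.1 = G.dist b.1 i.1 := by
    intro i a b hab
    have h := Quotient.exact hab
    apply eqvGen_eq bx by' (fun z => G.dist z.1 i.1) _ h
    intro j
    apply (hb j).eqd i.1 i.2.1
    intro hij
    apply j.2.2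
    rw [← hij]
    exact i.2.2
  -- adjacency between members of `A T` and members of `T`
  have adjT : ∀ (i : {w : V // w ∈ W ∧ ∃ y, TypeA G r W w y}) (t : {v : V // v ∉ W}),
      Quotient.mk s (f i) = Quotient.mk s t → G.Adj t.1 i.1 := by
    intro i t ht
    have h := F1 i _ _ ht
    have h1 : G.dist (f i).1 i.1 = 1 := SimpleGraph.dist_eq_one_iff_adj.2 (hf i).adj.symm
    rw [h1] at h
    exact SimpleGraph.dist_eq_one_iff_adj.1 h.symm
  have adjA : ∀ i j : {w : V // w ∈ W ∧ ∃ y, TypeA G r W w y}, i ≠ j →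
      Quotient.mk s (f i) = Quotient.mk s (f j) → G.Adj i.1 j.1 := by
    intro i j hij hq
    have h1 : G.dist i.1 j.1 = G.dist (f i).1 j.1 :=
      (hf i).eqd j.1 j.2.1 (fun h => hij (Subtype.ext h.symm))
    have h2 := F1 j _ _ hq
    have h3 : G.dist (f j).1 j.1 = 1 := SimpleGraph.dist_eq_one_iff_adj.2 (hf j).adj.symm
    apply SimpleGraph.dist_eq_one_iff_adj.1
    omega
  -- the sets `A T`
  set A : Quotient s → Finset V := fun T =>
    (Finset.univ.filter fun i : {w : V // w ∈ W ∧ ∃ y, TypeA G r W w y} =>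
      Quotient.mk s (f i) = T).map (Function.Embedding.subtype _) with hAdef
  have memA : ∀ T w, w ∈ A T ↔ ∃ i : {w : V // w ∈ W ∧ ∃ y, TypeA G r W w y},
      Quotient.mk s (f i) = T ∧ i.1 = w := by
    intro T w
    simp only [hAdef, Finset.mem_map, Finset.mem_filter, Finset.mem_univ, true_and,
      Function.Embedding.subtype_apply]
  have AW : ∀ T w, w ∈ A T → w ∈ W := by
    intro T w hw
    obtain ⟨i, _, hi⟩ := (memA T w).1 hw
    rw [← hi]; exact i.2.1
  have cliqueA : ∀ T, G.IsNClique (A T).card (A T) := by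
    intro T
    rw [SimpleGraph.isNClique_iff]
    refine ⟨?_, rfl⟩
    intro a ha b hb' hab
    rw [Finset.mem_coe, memA] at ha hb'
    obtain ⟨i, hi, rfl⟩ := ha
    obtain ⟨j, hj, rfl⟩ := hb'
    apply adjA i j _ (hi.trans hj.symm)
    intro h
    exact hab (by rw [h])
  have adjTA : ∀ (t : {v : V // v ∉ W}) w, w ∈ A (Quotient.mk s t) → G.Adj t.1 w := by
    intro t w hw
    obtain ⟨i, hi, rfl⟩ := (memA _ w).1 hw
    exact adjT i t hi
  have cliqueQ : ∀ t : {v : V // v ∉ W},
      G.IsNClique ((A (Quotient.mk s t)).card + 1) (insert t.1 (A (Quotient.mk s t))) := by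
    intro t
    exact (cliqueA _).insert (fun w hw => adjTA t w hw)
  have boundQ : ∀ t : {v : V // v ∉ W}, (A (Quotient.mk s t)).card + 1 ≤ ω := by
    intro t
    by_contra hc
    push Not at hc
    exact (hcf.mono (by omega)) _ (cliqueQ t)
  -- classes with a generator pair
  have boundGen : ∀ i, (A (Quotient.mk s (bx i))).card + 2 ≤ ω := by
    intro i
    by_contra hc
    push Not at hc
    have hxy : Quotient.mk s (bx i) = Quotient.mk s (by' i) :=
      Quotient.sound (Relation.EqvGen.rel _ _ ⟨i, rfl, rfl⟩)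
    have h1 := cliqueQ (bx i)
    have h2 : G.IsNClique ((A (Quotient.mk s (bx i))).card + 1 + 1)
        (insert (by' i).1 (insert (bx i).1 (A (Quotient.mk s (bx i))))) := by
      apply h1.insert
      intro w hw
      rcases Finset.mem_insert.1 hw with h | h
      · rw [h]; exact (hb i).adj.symm
      · rw [hxy] at h
        exact adjTA (by' i) w h
    exact (hcf.mono (by omega)) _ h2
  -- bad classes are singletons
  have single : ∀ t t' : {v : V // v ∉ W}, (A (Quotient.mk s t)).card + 1 = ω →
      Quotient.mk s t = Quotient.mk s t' → t = t' := by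
    intro t t' hbad htt
    rcases eqvGen_or bx by' (Quotient.exact htt) with h | ⟨i, hi⟩
    · exact h
    · exfalso
      have h1 : Quotient.mk s t = Quotient.mk s (bx i) := Quotient.sound hi
      have h2 := boundGen i
      rw [← h1] at h2
      omega
  -- members of a bad clique are equidistant from the rest of W
  have bad_eq : ∀ u : {v : V // v ∉ W}, (A (Quotient.mk s u)).card + 1 = ω →
      ∀ q ∈ A (Quotient.mk s u), TypeA G r W q u.1 := by
    intro u hbad q hq
    obtain ⟨i, hi, rfl⟩ := (memA _ _).1 hq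
    have := single u (f i) hbad hi.symm
    rw [this]
    exact hf i
  -- Claim A
  have claimA : ∀ u : {v : V // v ∉ W}, (A (Quotient.mk s u)).card + 1 = ω →
      ∀ z, z ∉ A (Quotient.mk s u) → z ≠ u.1 →
      ∀ q ∈ insert u.1 (A (Quotient.mk s u)), G.Adj q z → z ∉ W := by
    intro u hbad z hz hzu q hq hqz hzW
    have heq : ∀ p ∈ A (Quotient.mk s u), G.dist p z = G.dist u.1 z := by
      intro p hp
      apply (bad_eq u hbad p hp).eqd z hzW
      intro h
      exact hz (h ▸ hp)
    have hu1 : G.dist u.1 z = 1 := by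
      rcases Finset.mem_insert.1 hq with h | h
      · rw [← h]; exact SimpleGraph.dist_eq_one_iff_adj.2 hqz
      · rw [← heq q h]; exact SimpleGraph.dist_eq_one_iff_adj.2 hqz
    have hQ := cliqueQ u
    rw [hbad] at hQ
    apply no_ext hcf hQ (z := z)
    intro p hp
    rcases Finset.mem_insert.1 hp with h | h
    · rw [h]; exact (SimpleGraph.dist_eq_one_iff_adj.1 hu1).symm
    · have h1 := heq p h
      rw [hu1] at h1
      exact (SimpleGraph.dist_eq_one_iff_adj.1 h1).symm
  -- Claim B
  have claimB : ∀ u : {v : V // v ∉ W}, (A (Quotient.mk s u)).card + 1 = ω →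
      r ∈ insert u.1 (A (Quotient.mk s u)) := by
    intro u hbad
    by_contra hr
    obtain ⟨q0, hq0, hmin⟩ := Finset.exists_min_image (insert u.1 (A (Quotient.mk s u)))
      (fun q => G.dist q r) ⟨u.1, Finset.mem_insert_self _ _⟩
    have hne : q0 ≠ r := fun h => hr (h ▸ hq0)
    obtain ⟨z, hz, hzd⟩ := exists_closer hG hne
    have hzlt : ∀ q ∈ insert u.1 (A (Quotient.mk s u)), G.dist r z < G.dist r q := by
      intro q hq
      have h1 := hmin q hq
      rw [SimpleGraph.dist_comm (u := r) (v := z), SimpleGraph.dist_comm (u := r) (v := q)]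
      omega
    have heq : ∀ p ∈ A (Quotient.mk s u), G.dist p z = G.dist u.1 z := by
      intro p hp
      exact (bad_eq u hbad p hp).closer z (hzlt p (Finset.mem_insert_of_mem hp))
    have hu1 : G.dist u.1 z = 1 := by
      rcases Finset.mem_insert.1 hq0 with h | h
      · rw [← h]; exact SimpleGraph.dist_eq_one_iff_adj.2 hz
      · rw [← heq q0 h]; exact SimpleGraph.dist_eq_one_iff_adj.2 hz
    have hQ := cliqueQ u
    rw [hbad] at hQ
    apply no_ext hcf hQ (z := z)
    intro p hp
    rcases Finset.mem_insert.1 hp with h | h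
    · rw [h]; exact (SimpleGraph.dist_eq_one_iff_adj.1 hu1).symm
    · have h1 := heq p h
      rw [hu1] at h1
      exact (SimpleGraph.dist_eq_one_iff_adj.1 h1).symm
  -- Claim C
  have claimC : ∀ u u' : {v : V // v ∉ W}, (A (Quotient.mk s u)).card + 1 = ω →
      (A (Quotient.mk s u')).card + 1 = ω → Quotient.mk s u = Quotient.mk s u' := by
    intro u u' h1 h2
    have hr1 := claimB u h1
    have hr2 := claimB u' h2
    rcases Finset.mem_insert.1 hr1 with h3 | h3
    · rcases Finset.mem_insert.1 hr2 with h4 | h4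
      · have : u = u' := Subtype.ext (h3.symm.trans h4)
        rw [this]
      · exact absurd (AW _ _ h4) (h3 ▸ u.2)
    · rcases Finset.mem_insert.1 hr2 with h4 | h4
      · exact absurd (AW _ _ h3) (h4 ▸ u'.2)
      · obtain ⟨i, hi, hir⟩ := (memA _ _).1 h3
        obtain ⟨j, hj, hjr⟩ := (memA _ _).1 h4
        have : i = j := Subtype.ext (hir.trans hjr.symm)
        rw [← hi, ← hj, this]
  -- counting facts
  have cX : Fintype.card {v : V // v ∉ W} = Fintype.card V - W.card := by
    rw [Fintype.card_subtype]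
    have : (Finset.univ.filter fun v : V => v ∉ W) = Wᶜ := by
      ext v; simp
    rw [this, Finset.card_compl]
  have cW : Fintype.card {w : V // w ∈ W ∧ ∃ y, TypeA G r W w y} +
      Fintype.card {w : V // w ∈ W ∧ ¬ ∃ y, TypeA G r W w y} = W.card := by
    rw [Fintype.card_subtype, Fintype.card_subtype, ← Finset.card_union_of_disjoint]
    · congr 1
      ext w
      simp only [Finset.mem_union, Finset.mem_filter, Finset.mem_univ, true_and]
      tauto
    · rw [Finset.disjoint_left]
      intro w h1 h2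
      simp only [Finset.mem_filter, Finset.mem_univ, true_and] at h1 h2
      exact h2.2 h1.2
  have cA : Fintype.card {w : V // w ∈ W ∧ ∃ y, TypeA G r W w y} = ∑ T, (A T).card := by
    rw [← Finset.card_univ, Finset.card_eq_sum_card_fiberwise
      (f := fun i => Quotient.mk s (f i)) (t := Finset.univ) (fun _ _ => Finset.mem_coe.2 (Finset.mem_univ _))]
    apply Finset.sum_congr rfl
    intro T _
    simp only [hAdef, Finset.card_map]
  have cN : Fintype.card (Quotient s) ≤ Fintype.card {v : V // v ∉ W} :=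
    Fintype.card_quotient_le s
  have fin : (∑ T, (A T).card ≤ (ω - 2) * Fintype.card (Quotient s)) →
      W.card ≤ (ω - 2) * (Fintype.card V - W.card) := by
    intro hsum
    rw [← cX]
    obtain ⟨k, hk⟩ := Nat.exists_eq_add_of_le hω
    have hk2 : ω - 2 = k + 1 := by omega
    rw [hk2] at hsum ⊢
    have h1 : k * Fintype.card (Quotient s) ≤ k * Fintype.card {v : V // v ∉ W} :=
      Nat.mul_le_mul_left _ cN
    have h2 : (k + 1) * Fintype.card (Quotient s) =
      k * Fintype.card (Quotient s) + Fintype.card (Quotient s) := by ring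
    have h3 : (k + 1) * Fintype.card {v : V // v ∉ W} =
      k * Fintype.card {v : V // v ∉ W} + Fintype.card {v : V // v ∉ W} := by ring
    omega
  by_cases hall : ∀ u : {v : V // v ∉ W}, (A (Quotient.mk s u)).card + 1 ≠ ω
  · apply fin
    apply sum_bound (ω - 2) (by omega)
    left
    intro T
    induction T using Quotient.inductionOn with
    | h t =>
      have h1 := boundQ t
      have h2 := hall t
      omega
  · push Not at hall
    obtain ⟨u, hu⟩ := hall
    by_cases hsub : ∀ w ∈ W, w ∈ A (Quotient.mk s u)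
    · have h1 : W.card ≤ (A (Quotient.mk s u)).card := Finset.card_le_card hsub
      have h2 : 2 ≤ Fintype.card V - W.card := by omega
      calc W.card ≤ (ω - 2) * 2 := by omega
        _ ≤ _ := Nat.mul_le_mul_left _ h2
    · push Not at hsub
      obtain ⟨w2, hw2, hw2A⟩ := hsub
      have hne : (A (Quotient.mk s u)).Nonempty := by
        rw [← Finset.card_pos]; omega
      obtain ⟨q, hq⟩ := hne
      have hqw2 : q ≠ w2 := fun h => hw2A (h ▸ hq)
      obtain ⟨z, hqz, hzd⟩ := exists_closer hG hqw2
      have heq : ∀ p ∈ A (Quotient.mk s u), G.dist p w2 = G.dist u.1 w2 := by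
        intro p hp
        apply (bad_eq u hu p hp).eqd w2 hw2
        intro h
        exact hw2A (h ▸ hp)
      have hzA : z ∉ A (Quotient.mk s u) := by
        intro h
        have h1 := heq z h
        have h2 := heq q hq
        omega
      have hzu : z ≠ u.1 := by
        intro h
        have h2 := heq q hq
        rw [h] at hzd
        omega
      have hzW : z ∉ W := claimA u hu z hzA hzu q (Finset.mem_insert_of_mem hq) hqz
      apply fin
      apply sum_bound (ω - 2) (by omega)
      right
      refine ⟨Quotient.mk s u, Quotient.mk s ⟨z, hzW⟩, ?_, by omega, ?_, ?_⟩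
      · intro h
        have := single u ⟨z, hzW⟩ hu h
        apply hzu
        rw [this]
      · rw [Finset.card_eq_zero]
        by_contra hnon
        obtain ⟨w, hw⟩ := Finset.nonempty_iff_ne_empty.2 hnon
        obtain ⟨i, hi, rfl⟩ := (memA _ _).1 hw
        obtain ⟨j, hj, rfl⟩ := (memA _ _).1 hq
        have hij : i ≠ j := by
          intro h
          rw [h, hj] at hi
          have := single u ⟨z, hzW⟩ hu hi
          apply hzu
          rw [this]
        -- `i` is adjacent to `j`
        have h1 : G.dist i.1 j.1 = G.dist (f i).1 j.1 :=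
          (hf i).eqd j.1 j.2.1 (fun h => hij (Subtype.ext h.symm))
        have h2 := F1 j _ _ hi
        have h3 : G.dist z j.1 = 1 := SimpleGraph.dist_eq_one_iff_adj.2 hqz.symm
        have h4 : G.Adj i.1 j.1 := by
          apply SimpleGraph.dist_eq_one_iff_adj.1
          simp only at h2
          omega
        have hiA : i.1 ∉ A (Quotient.mk s u) := by
          intro h
          obtain ⟨i', hi', hii⟩ := (memA _ _).1 h
          have : i' = i := Subtype.ext hii
          rw [this] at hi'
          rw [hi'] at hi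
          have := single u ⟨z, hzW⟩ hu hi
          apply hzu
          rw [this]
        have hiu : i.1 ≠ u.1 := fun h => u.2 (h ▸ i.2.1)
        exact claimA u hu i.1 hiA hiu j.1 (Finset.mem_insert_of_mem hq) h4.symm i.2.1
      · intro T hT
        induction T using Quotient.inductionOn with
        | h t =>
          have h1 := boundQ t
          have h2 : (A (Quotient.mk s t)).card + 1 ≠ ω := by
            intro h
            exact hT (claimC t u h hu)
          omega

theorem main {V : Type} [Fintype V] {G : SimpleGraph V} (hG : G.Connected)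
    {ω : ℕ} (hcf : G.CliqueFree (ω + 1)) (hω : 3 ≤ ω) (hn : ω + 1 ≤ Fintype.card V) :
    ∃ W : Finset V, Resolving G W ∧ W.card * (ω - 1) ≤ (ω - 2) * Fintype.card V := by
  classical
  have hne : Nonempty V := hG.nonempty
  obtain ⟨r⟩ := hne
  obtain ⟨W, hW, hgood⟩ := exists_good hG r
  refine ⟨W, hW, ?_⟩
  have h := count hG hcf hω hn r W (split_types hG r W hgood)
  have hle : W.card ≤ Fintype.card V := Finset.card_le_univ _
  obtain ⟨k, hk⟩ := Nat.exists_eq_add_of_le hω
  have hk2 : ω - 2 = k + 1 := by omega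
  have hk3 : ω - 1 = k + 2 := by omega
  rw [hk2] at h ⊢
  rw [hk3]
  obtain ⟨m, hm⟩ := Nat.exists_eq_add_of_le hle
  rw [hm] at h ⊢
  have : W.card + m - W.card = m := by omega
  rw [this] at h
  nlinarith

end Pool.Agent.N431.LMD
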